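import Pool.Agent.H38.FT.RigidMain
import Pool.Agent.H59.FT.Reduction
import Pool.Agent.H70.FT.Groups

/-!
# The finite fully transitive polyhedra in Euclidean 3-space

A finite polyhedron in Euclidean 3-space is fully transitive if and only if it is similar to exactly
one item of the list: 42 rigid polyhedra and 10 × 3 one-parameter families with explicit ranges of
the parameter. All items are finite fully transitive polyhedra.
-/

namespace Pool.Agent.Results.MP_6dcd1c_co.FiniteClassificationUnique

open Pool.Agent.H38.FT

theorem result :
    (∀ P : Cfg E3, IsFinitePolyhedron P → (FullyTransitive P ↔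
      ∃! i : Item, i.Valid ∧ Similar P (i.cfg.map (WithLp.toLp 2)))) ∧
    (∀ i : Item, i.Valid → IsFinitePolyhedron (i.cfg.map (WithLp.toLp 2)) ∧
      FullyTransitive (i.cfg.map (WithLp.toLp 2))) ∧
    rigidList.length = 42 ∧ rigidList.Nodup ∧ familyList.length = 10 ∧ familyList.Nodup :=
  ⟨(classification2 rigidDistinct Pool.Agent.H70.FT.finite_groups
      Pool.Agent.H59.FT.reduction).1,
    (classification2 rigidDistinct Pool.Agent.H70.FT.finite_groups
      Pool.Agent.H59.FT.reduction).2,
    by decide +kernel, by decide +kernel, by decide +kernel, by decide +kernel⟩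

end Pool.Agent.Results.MP_6dcd1c_co.FiniteClassificationUnique
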